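import Pool.Agent.Helper95.Lin.GoalsJ

/-! # The deck group of a covering of a Hausdorff space acts properly -/

open Complex Metric Set Filter Topology MeasureTheory
open scoped ContDiff ComplexConjugate ComplexOrder Manifold

namespace Pool.Agent.Helper77.Lin

open Pool.Agent.Helper16.Abund Pool.Agent.Helper92.Orb Pool.Agent.Helper95.Lin

universe u v

theorem deck_eq {Y : Type v} {X : Type u} [TopologicalSpace Y] [TopologicalSpace X]
    [PreconnectedSpace Y] {P : Y → X} (hP : IsCoveringMap P) {h₁ h₂ : Y ≃ₜ Y}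
    (d₁ : ∀ y, P (h₁ y) = P y) (d₂ : ∀ y, P (h₂ y) = P y) {y : Y} (e : h₁ y = h₂ y) : h₁ = h₂ := by
  have : (h₁ : Y → Y) = h₂ :=
    hP.eq_of_comp_eq h₁.continuous h₂.continuous (by funext x; simp [d₁, d₂]) y e
  exact Homeomorph.ext (congrFun this)

theorem local_case {Y : Type v} {X : Type u} [TopologicalSpace Y] [TopologicalSpace X]
    [LocallyConnectedSpace Y] [PreconnectedSpace Y] [T2Space X] {P : Y → X} (hc : Continuous P)
    (hP : IsCoveringMap P) (y y' : Y) : ∃ W ∈ 𝓝 (y, y'),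
      {h : Y ≃ₜ Y | (∀ v, P (h v) = P v) ∧ ∃ v, (v, h v) ∈ W}.Finite := by
  by_cases he : P y = P y'
  · obtain ⟨e, hy', hPe⟩ := hP.isLocalHomeomorph y'
    have hyt : P y ∈ e.target := by
      rw [he, hPe]
      exact e.map_source hy'
    have hn : P ⁻¹' e.target ∈ 𝓝 y := hc.continuousAt.preimage_mem_nhds
      (e.open_target.mem_nhds hyt)
    obtain ⟨U, hUs, hUo, hyU, hUc⟩ :=
      locallyConnectedSpace_iff_subsets_isOpen_isConnected.mp inferInstance y _ hn
    refine ⟨U ×ˢ e.source, prod_mem_nhds (hUo.mem_nhds hyU) (e.open_source.mem_nhds hy'), ?_⟩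
    refine Set.Subsingleton.finite ?_
    rintro h₁ ⟨d₁, v₁, hv₁, hs₁⟩ h₂ ⟨d₂, v₂, hv₂, hs₂⟩
    have key : ∀ (h : Y ≃ₜ Y), (∀ v, P (h v) = P v) → ∀ v ∈ U, h v ∈ e.source →
        EqOn h (fun x => e.symm (P x)) U := by
      intro h d v hv hs
      refine hP.eqOn_of_comp_eqOn hUc.isPreconnected h.continuous.continuousOn ?_ ?_ hv ?_
      · exact e.continuousOn_symm.comp hc.continuousOn fun x hx => hUs hx
      · intro x hx
        change P (h x) = P (e.symm (P x))
        rw [d]
        nth_rewrite 2 [hPe]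
        rw [e.right_inv (hUs hx)]
      · change h v = e.symm (P v)
        rw [← d v]
        nth_rewrite 1 [hPe]
        rw [e.left_inv hs]
    have k₁ := key h₁ d₁ v₁ hv₁ hs₁
    have k₂ := key h₂ d₂ v₂ hv₂ hs₂
    exact deck_eq hP d₁ d₂ ((k₁ hyU).trans (k₂ hyU).symm)
  · obtain ⟨V, V', hV, hV', hyV, hyV', hd⟩ := t2_separation he
    refine ⟨(P ⁻¹' V) ×ˢ (P ⁻¹' V'), prod_mem_nhds
      (hc.continuousAt.preimage_mem_nhds (hV.mem_nhds hyV))
      (hc.continuousAt.preimage_mem_nhds (hV'.mem_nhds hyV')), ?_⟩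
    convert Set.finite_empty
    rw [Set.eq_empty_iff_forall_notMem]
    rintro h ⟨d, v, hv, hs⟩
    refine Set.disjoint_left.mp hd hv ?_
    have : P (h v) ∈ V' := hs
    rwa [d] at this

theorem deck_proper {Y : Type v} {X : Type u} [TopologicalSpace Y] [TopologicalSpace X]
    [LocallyConnectedSpace Y] [PreconnectedSpace Y] [T2Space X] {P : Y → X} (hc : Continuous P)
    (hP : IsCoveringMap P) {K : Set Y} (hK : IsCompact K) :
    {h : Y ≃ₜ Y | (∀ v, P (h v) = P v) ∧ ∃ v ∈ K, h v ∈ K}.Finite := by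
  choose W hW hWf using fun q : Y × Y => local_case hc hP q.1 q.2
  obtain ⟨t, -, ht⟩ := (hK.prod hK).elim_nhds_subcover W fun q _ => hW q
  refine (t.finite_toSet.biUnion fun q _ => hWf q).subset ?_
  rintro h ⟨d, v, hv, hs⟩
  have : (v, h v) ∈ ⋃ q ∈ t, W q := ht ⟨hv, hs⟩
  rw [Set.mem_iUnion₂] at this
  obtain ⟨q, hq, hqW⟩ := this
  rw [Set.mem_iUnion₂]
  exact ⟨q, hq, d, v, hqW⟩

instance {b : ℕ} {D : Set (Cn b)} (hD : IsOpen D) : LocallyConnectedSpace (TorTube hD 1) :=
  (tube D hD 1).isOpen.locallyConnectedSpace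

theorem preconnected_tube {b : ℕ} {D : Set (Cn b)} (hD : IsOpen D) (hc : IsPreconnected D) :
    PreconnectedSpace (TorTube hD 1) := by
  have h1 : IsPreconnected ((base : Cn (b + 1) → Cn b) ⁻¹' D) := by
    have h2 : (base : Cn (b + 1) → Cn b) ⁻¹' D =
        (fun p : Cn b × Cn 1 => (Fin.append p.1 p.2 : Cn (b + 1))) '' (D ×ˢ univ) := by
      ext v
      constructor
      · intro hv
        refine ⟨(base v, fib v), ⟨hv, mem_univ _⟩, ?_⟩
        funext i
        refine Fin.addCases (fun i => ?_) (fun i => ?_) i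
        · simp [base]
        · simp [fib]
      · rintro ⟨p, ⟨hp, -⟩, rfl⟩
        have : base (Fin.append p.1 p.2 : Cn (b + 1)) = p.1 := by
          funext i
          simp [base]
        rw [Set.mem_preimage, this]
        exact hp
    rw [h2]
    refine (hc.prod isPreconnected_univ).image _ (Continuous.continuousOn ?_)
    refine continuous_pi fun i => ?_
    refine Fin.addCases (fun i => ?_) (fun i => ?_) i
    · simp only [Fin.append_left]
      fun_prop
    · simp only [Fin.append_right]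
      fun_prop
  exact isPreconnected_iff_preconnectedSpace.mp h1

theorem DKPR : S_DKPR.{u} := by
  intro b D hD hcon X _ _ P hc hP K hK
  haveI := preconnected_tube hD hcon.isPreconnected
  have h1 := deck_proper hc hP hK
  have h2 := h1.preimage (f := fun γ : Deck P => γ.1) Subtype.val_injective.injOn
  refine h2.subset ?_
  rintro γ ⟨y, hy, hs⟩
  exact ⟨γ.2, y, hy, hs⟩

end Pool.Agent.Helper77.Lin
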